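import Pool.Agent.H59.L.S8.TH867.SR.Fib

/-! The choice of the prescribed primes: their product is at most `rad ^ (2/3 + 1/k)`
(helper867). -/

set_option autoImplicit false

namespace Pool.Agent.TH867.SR

open Finset

/-- a subset of weight `≥ κ` and small cost -/
theorem greedy {ι : Type*} [DecidableEq ι] (w r : ι → ℝ) {κ ρ M : ℝ} (hκ : 0 ≤ κ) (hρ : 0 ≤ ρ)
    (hM : 0 ≤ M) (s : Finset ι) : (∀ i ∈ s, r i ≤ M) → ∑ i ∈ s, r i ≤ ρ * ∑ i ∈ s, w i →
    κ ≤ ∑ i ∈ s, w i → ∃ Q ⊆ s, κ ≤ ∑ i ∈ Q, w i ∧ ∑ i ∈ Q, r i ≤ ρ * κ + M := by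
  induction s using Finset.strongInduction with
  | H s ih =>
    intro hr hf hw
    rcases s.eq_empty_or_nonempty with rfl | hne
    · refine ⟨∅, le_rfl, hw, ?_⟩
      rw [Finset.sum_empty]
      positivity
    · obtain ⟨i0, hi0, hmax⟩ := Finset.exists_max_image s (fun i => r i - ρ * w i) hne
      have hsw : ∑ i ∈ s.erase i0, w i = ∑ i ∈ s, w i - w i0 := by
        rw [← Finset.add_sum_erase s w hi0]; ring
      have hsr : ∑ i ∈ s.erase i0, r i = ∑ i ∈ s, r i - r i0 := by
        rw [← Finset.add_sum_erase s r hi0]; ring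
      have hf' : ∑ i ∈ s.erase i0, r i ≤ ρ * ∑ i ∈ s.erase i0, w i := by
        rcases le_or_gt 0 (r i0 - ρ * w i0) with h0 | h0
        · rw [hsr, hsw, mul_sub]; linarith
        · have h1 : ∑ i ∈ s.erase i0, (r i - ρ * w i) ≤ 0 :=
            Finset.sum_nonpos fun i hi => (hmax i (Finset.mem_of_mem_erase hi)).trans h0.le
          rw [Finset.sum_sub_distrib, ← Finset.mul_sum] at h1
          linarith
      rcases le_or_gt κ (∑ i ∈ s.erase i0, w i) with h1 | h1
      · obtain ⟨Q, hQ, h2, h3⟩ := ih _ (Finset.erase_ssubset hi0)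
          (fun i hi => hr i (Finset.mem_of_mem_erase hi)) hf' h1
        exact ⟨Q, hQ.trans (Finset.erase_subset _ _), h2, h3⟩
      · refine ⟨s, le_rfl, hw, ?_⟩
        have h2 := hr i0 hi0
        have h3 : ρ * ∑ i ∈ s.erase i0, w i ≤ ρ * κ := mul_le_mul_of_nonneg_left h1.le hρ
        linarith

/-- `log (rad (t j))` -/
noncomputable def rr (t : Fin 3 → ℕ) (j : Fin 3) : ℝ := ∑ q ∈ (t j).primeFactors, Real.log q

theorem rr_nonneg (t : Fin 3 → ℕ) (j : Fin 3) : 0 ≤ rr t j :=
  Finset.sum_nonneg fun _ hq => log_prime_nonneg (Nat.prime_of_mem_primeFactors hq)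

/-- a set of primes of a side which is not small -/
theorem side_part {k : ℕ} (hk : 1 ≤ k) {t : Fin 3 → ℕ} (h : Tr t) {j : Fin 3}
    (h2 : 0 < Real.log (t 2)) (hk2 : 2 ≤ k)
    (hj : Real.log (t 2) / 2 ≤ Real.log (t j)) :
    ∃ p ∈ (t j).primeFactors, ∃ Q ⊆ (t j).primeFactors,
      Real.log (t 2) / k ≤ ∑ q ∈ Q, (vv t q : ℝ) * Real.log q ∧
      ∑ q ∈ Q, Real.log q ≤ 2 / k * rr t j + Real.log p := by
  have hk0 : (0 : ℝ) < k := by exact_mod_cast hk
  have hk2' : (2 : ℝ) ≤ k := by exact_mod_cast hk2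
  have hlogj : 0 < Real.log (t j) := by linarith
  have hne : (t j).primeFactors.Nonempty := by
    rw [Nat.nonempty_primeFactors]
    by_contra hcon
    have h1 : t j ≤ 1 := by omega
    have h3 : (t j : ℝ) ≤ 1 := by exact_mod_cast h1
    have h4 : Real.log (t j) ≤ 0 := Real.log_nonpos (by positivity) h3
    linarith
  obtain ⟨p, hp, hmax⟩ := Finset.exists_max_image (t j).primeFactors (fun q => Real.log (q : ℝ)) hne
  refine ⟨p, hp, ?_⟩
  obtain ⟨Q, hQ, h3, h4⟩ := greedy (fun q => (vv t q : ℝ) * Real.log q)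
    (fun q : ℕ => Real.log (q : ℝ)) (κ := Real.log (t 2) / k) (ρ := rr t j / Real.log (t j))
    (M := Real.log p) (by positivity) (div_nonneg (rr_nonneg t j) hlogj.le)
    (log_prime_nonneg (Nat.prime_of_mem_primeFactors hp)) (t j).primeFactors hmax
    (by rw [side_sum h, div_mul_cancel₀ _ hlogj.ne']; exact le_rfl)
    (by
      rw [side_sum h]
      refine le_trans ?_ hj
      exact div_le_div_of_nonneg_left h2.le (by norm_num) hk2')
  refine ⟨Q, hQ, h3, h4.trans ?_⟩
  have h5 : rr t j / Real.log (t j) * (Real.log (t 2) / k) ≤ 2 / k * rr t j := by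
    have h6 : Real.log (t 2) ≤ 2 * Real.log (t j) := by linarith
    have h7 : rr t j / Real.log (t j) * (Real.log (t 2) / k) =
        rr t j / k * (Real.log (t 2) / Real.log (t j)) := by ring
    rw [h7]
    have h8 : Real.log (t 2) / Real.log (t j) ≤ 2 := by
      rw [div_le_iff₀ hlogj]; linarith
    calc rr t j / k * (Real.log (t 2) / Real.log (t j)) ≤ rr t j / k * 2 :=
          mul_le_mul_of_nonneg_left h8 (div_nonneg (rr_nonneg t j) hk0.le)
      _ = 2 / k * rr t j := by ring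
  linarith

/-- `S` is a good set of prescribed primes for the triple `t` -/
def Good (k : ℕ) (X l : ℝ) (S : Finset ℕ) (t : Fin 3 → ℕ) : Prop :=
  Light k S t ∨ ∃ (A B C : Fin 3) (Q : Finset ℕ) (e p : ℕ), A ≠ B ∧ B ≠ C ∧ A ≠ C ∧
    InP k S Q A B C e X l t p

/-- the prescribed primes for the sides `A`, `B`, `C` -/
theorem good_of {k : ℕ} {X l : ℝ} {t : Fin 3 → ℕ} (h : Tr t) (hs : Scale k l t) {A B C : Fin 3}
    (hAB : A ≠ B) (hBC : B ≠ C) (hAC : A ≠ C) {p : ℕ} (hp : p ∈ (t B).primeFactors)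
    (hpX : (p : ℝ) ≤ X) {Q : Finset ℕ} (hQ : Q ⊆ (t A).primeFactors)
    (hw : Real.log (t 2) / k ≤ ∑ q ∈ Q, (vv t q : ℝ) * Real.log q) :
    ∃ S : Finset ℕ, (∀ q ∈ S, q.Prime) ∧ Good k X l S t ∧
      ∑ q ∈ S, Real.log q = rr t B - Real.log p + rr t C + ∑ q ∈ Q, Real.log q := by
  classical
  have hpp := Nat.prime_of_mem_primeFactors hp
  have hpd := Nat.dvd_of_mem_primeFactors hp
  have hd1 : Disjoint ((t B).primeFactors.erase p) (t C).primeFactors :=
    (h.cop' hBC).disjoint_primeFactors.mono_left (Finset.erase_subset _ _)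
  have hQp : ∀ q ∈ Q, q.Prime := fun q hq => Nat.prime_of_mem_primeFactors (hQ hq)
  have hQd : ∀ q ∈ Q, q ∣ t A := fun q hq => Nat.dvd_of_mem_primeFactors (hQ hq)
  have hd2 : Disjoint ((t B).primeFactors.erase p ∪ (t C).primeFactors) Q := by
    rw [Finset.disjoint_left]
    intro q hq hqQ
    rcases Finset.mem_union.1 hq with h1 | h1
    · exact hAB (h.uniq (hQp q hqQ) (hQd q hqQ)
        (Nat.dvd_of_mem_primeFactors (Finset.mem_of_mem_erase h1)))
    · exact hAC (h.uniq (hQp q hqQ) (hQd q hqQ) (Nat.dvd_of_mem_primeFactors h1))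
  refine ⟨((t B).primeFactors.erase p ∪ (t C).primeFactors) ∪ Q, ?_, ?_, ?_⟩
  · intro q hq
    rcases Finset.mem_union.1 hq with hq | hq
    · rcases Finset.mem_union.1 hq with hq | hq
      · exact Nat.prime_of_mem_primeFactors (Finset.mem_of_mem_erase hq)
      · exact Nat.prime_of_mem_primeFactors hq
    · exact hQp q hq
  · right
    refine ⟨A, B, C, Q, vv t p, p, hAB, hBC, hAC, ?_⟩
    refine
      { tr := h
        sc := hs
        pp := hpp
        pS := ?_
        pX := hpX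
        pB := hpd
        ve := rfl
        fB := ?_
        fC := ?_
        QS := Finset.subset_union_right
        QA := hQd
        wt := hw }
    · intro hm
      rcases Finset.mem_union.1 hm with hm | hm
      · rcases Finset.mem_union.1 hm with hm | hm
        · exact Finset.notMem_erase _ _ hm
        · exact hBC (h.uniq hpp hpd (Nat.dvd_of_mem_primeFactors hm))
      · exact hAB (h.uniq hpp (hQd p hm) hpd)
    · intro q hq
      rw [Finset.mem_insert]
      by_cases hqp : q = p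
      · exact Or.inl hqp
      · right
        exact Finset.mem_union_left _ (Finset.mem_union_left _ (Finset.mem_erase.2 ⟨hqp, hq⟩))
    · exact Finset.subset_union_right.trans Finset.subset_union_left
  · rw [Finset.sum_union hd2, Finset.sum_union hd1]
    have h1 := Finset.add_sum_erase (t B).primeFactors (fun q : ℕ => Real.log (q : ℝ)) hp
    unfold rr
    linarith

/-- the choice of the prescribed primes -/
theorem choice {k : ℕ} (hk : 2 ≤ k) {X l : ℝ} (hl : 2 ≤ l) {t : Fin 3 → ℕ} (h : Tr t)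
    (hs : Scale k l t) (hX : ∀ j, ∀ p ∈ (t j).primeFactors, (p : ℝ) ≤ X) :
    ∃ S : Finset ℕ, (∀ q ∈ S, q.Prime) ∧ Good k X l S t ∧
      ∑ q ∈ S, Real.log q ≤ (2 / 3 + 1 / k) * (rr t 0 + rr t 1 + rr t 2) := by
  classical
  have hk0 : (0 : ℝ) < k := by positivity
  have hk1 : 1 ≤ k := by omega
  have hk2 : (2 : ℝ) ≤ k := by exact_mod_cast hk
  have l2a := Real.log_two_gt_d9
  have l2b := Real.log_two_lt_d9
  have hT : 2 ≤ Real.log (t 2) := hl.trans hs.1
  have r0 := rr_nonneg t 0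
  have r1 := rr_nonneg t 1
  have r2 := rr_nonneg t 2
  have h21 : Real.log (t 2) / 2 ≤ Real.log (t 1) := by
    have := log_one_ge h
    linarith
  have h22 : Real.log (t 2) / 2 ≤ Real.log (t 2) := by linarith
  obtain ⟨p1, hp1, Q1, hQ1, w1, c1⟩ := side_part hk1 h (j := 1) (by linarith) hk h21
  obtain ⟨p2, hp2, Q2, hQ2, w2, c2⟩ := side_part hk1 h (j := 2) (by linarith) hk h22
  have kk : (0 : ℝ) < 1 / k := by positivity
  have k2 : (2 : ℝ) / k = 2 * (1 / k) := by ring
  rw [k2] at c1 c2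
  obtain ⟨κ, hκ⟩ : ∃ κ : ℝ, κ = 1 / k := ⟨_, rfl⟩
  rw [← hκ] at c1 c2 kk ⊢
  have m0 := mul_nonneg kk.le r0
  have m1 := mul_nonneg kk.le r1
  have m2 := mul_nonneg kk.le r2
  rcases le_or_gt (Real.log (t 0)) (Real.log (t 2) / 2) with h0 | h0
  · -- `a` is small
    obtain ⟨S12, g1, g2, g3⟩ := good_of (X := X) h hs (A := 1) (B := 2) (C := 0) (by decide)
      (by decide) (by decide) hp2 (hX 2 p2 hp2) hQ1 w1
    obtain ⟨S21, f1, f2, f3⟩ := good_of (X := X) h hs (A := 2) (B := 1) (C := 0) (by decide)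
      (by decide) (by decide) hp1 (hX 1 p1 hp1) hQ2 w2
    have hlight : Light k ((t 1).primeFactors ∪ (t 2).primeFactors) t := by
      rw [Light, Finset.sum_union (h.cop' (by decide)).disjoint_primeFactors, side_sum h,
        side_sum h, log_N3 h]
      have e2 : (1 - 1 / (k : ℝ)) * Real.log (t 2) = Real.log (t 2) - Real.log (t 2) / k := by
        ring
      have e3 : Real.log (t 2) / k ≤ Real.log (t 2) / 2 :=
        div_le_div_of_nonneg_left (by linarith) (by norm_num) hk2
      rw [e2]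
      linarith
    by_contra hcon
    push Not at hcon
    have a1 := hcon _ (fun q hq => by
      rcases Finset.mem_union.1 hq with hq | hq
      · exact Nat.prime_of_mem_primeFactors hq
      · exact Nat.prime_of_mem_primeFactors hq) (Or.inl hlight)
    have a2 := hcon S12 g1 g2
    have a3 := hcon S21 f1 f2
    rw [Finset.sum_union (h.cop' (by decide)).disjoint_primeFactors] at a1
    have a1' : (2 / 3 + κ) * (rr t 0 + rr t 1 + rr t 2) < rr t 1 + rr t 2 := a1
    rw [g3] at a2
    rw [f3] at a3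
    nlinarith
  · obtain ⟨p0, hp0, Q0, hQ0, w0, c0⟩ := side_part hk1 h (j := 0) (by linarith) hk h0.le
    rw [k2, ← hκ] at c0
    obtain ⟨S01, g1, g2, g3⟩ := good_of (X := X) h hs (A := 0) (B := 1) (C := 2) (by decide)
      (by decide) (by decide) hp1 (hX 1 p1 hp1) hQ0 w0
    obtain ⟨S12, f1, f2, f3⟩ := good_of (X := X) h hs (A := 1) (B := 2) (C := 0) (by decide)
      (by decide) (by decide) hp2 (hX 2 p2 hp2) hQ1 w1
    obtain ⟨S20, e1, e2, e3⟩ := good_of (X := X) h hs (A := 2) (B := 0) (C := 1) (by decide)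
      (by decide) (by decide) hp0 (hX 0 p0 hp0) hQ2 w2
    by_contra hcon
    push Not at hcon
    have a1 := hcon _ g1 g2
    have a2 := hcon _ f1 f2
    have a3 := hcon _ e1 e2
    rw [g3] at a1
    rw [f3] at a2
    rw [e3] at a3
    nlinarith

end Pool.Agent.TH867.SR
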