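import Pool.Agent.H59.L.S8.TH867.SR.Cho

/-! Counting the triples of one scale (helper867). -/

set_option autoImplicit false

namespace Pool.Agent.TH867.SR

open Finset

/-- one cell contains at most one light triple -/
theorem card_light {k : ℕ} (hk : 1 ≤ k) {S : Finset ℕ} {l : ℝ} (hS : ∀ q ∈ S, q.Prime)
    (hl : 2 * (k : ℝ) ≤ l) (F : Finset (Fin 3 → ℕ))
    (hF : ∀ t ∈ F, Tr t ∧ Scale k l t ∧ Light k S t) :
    F.card ≤ 2 ^ (18 * k * (S.card + 1)) := by
  have hk0 : (0 : ℝ) < k := by exact_mod_cast hk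
  have hl0 : 0 < l := by linarith
  obtain ⟨f, hf⟩ := cells hk S l hS hl0
  have h1 : F.card ≤ (Finset.univ : Finset (Fin (2 ^ (18 * k * (S.card + 1))))).card := by
    refine Finset.card_le_card_of_injOn f (fun _ _ => Finset.mem_coe.2 (Finset.mem_univ _)) ?_
    intro t ht t' ht' he
    obtain ⟨a1, a2, a3⟩ := hF t ht
    obtain ⟨b1, b2, b3⟩ := hF t' ht'
    exact gap hk hS hl a1 b1 a2 b2 a3 b3 ((hf t t' a1 b1 a2 b2 he).near (prec_card hk hl0.le S))
  rwa [Finset.card_univ, Fintype.card_fin] at h1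

/-- one cell contains few triples with a distinguished prime -/
theorem card_P {k : ℕ} (hk : 1 ≤ k) {S Q : Finset ℕ} {A B C : Fin 3} {e : ℕ} {X l : ℝ}
    {n K : ℕ} (hAB : A ≠ B) (hBC : B ≠ C) (hAC : A ≠ C) (hS : ∀ q ∈ S, q.Prime)
    (hl : 2 * (k : ℝ) ≤ l) (hn : 0 < n) (F : Finset (Fin 3 → ℕ))
    (hF : ∀ t ∈ F, ∃ p, InP k S Q A B C e X l t p) (hK : ∀ t ∈ F, t 2 ≤ 2 ^ K)
    (hcond : 8 * (∏ q ∈ S, q) * (n * K + 1) ^ (2 * S.card) < 2 ^ n)
    (hbad : Real.log e + n * Real.log ⌊X⌋₊ < 3 / 4 * (l / k)) :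
    F.card ≤ 2 ^ (18 * k * (S.card + 1)) * n := by
  classical
  have hk0 : (0 : ℝ) < k := by exact_mod_cast hk
  have hl0 : 0 < l := by linarith
  by_contra hcon
  push Not at hcon
  obtain ⟨f, hf⟩ := cells hk S l hS hl0
  have hcard2 : (Finset.univ : Finset (Fin (2 ^ (18 * k * (S.card + 1))))).card * n < F.card := by
    rw [Finset.card_univ, Fintype.card_fin]
    exact hcon
  obtain ⟨c, _, hc⟩ := Finset.exists_lt_card_fiber_of_mul_lt_card_of_maps_to
    (s := F) (f := f) (fun _ _ => Finset.mem_univ _) hcard2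
  obtain ⟨T, hT, hTc⟩ := Finset.exists_subset_card_eq hc.le
  let io : Fin n ≃ T := (Finset.equivFinOfCardEq hTc).symm
  have hmem : ∀ i : Fin n, (io i : Fin 3 → ℕ) ∈ F ∧ f (io i) = c := fun i =>
    Finset.mem_filter.1 (hT (io i).2)
  choose p hp using fun i : Fin n => hF _ (hmem i).1
  have hN : ∀ i j, Near1 S (prec k l S) (io i : Fin 3 → ℕ) (io j) := fun i j =>
    hf _ _ (hp i).tr (hp j).tr (hp i).sc (hp j).sc ((hmem i).2.trans (hmem j).2.symm)
  have hinj : Function.Injective p := by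
    intro i j hij
    have h1 := hp i
    have h2 := hp j
    rw [hij] at h1
    exact io.injective (Subtype.ext (InP.inj hk hAB hBC hAC hS hl h1 h2 (hN i j)))
  have := pig hk hAB hBC hAC hS hl0.le hn hp hN hinj (fun i => hK _ (hmem i).1)
    (fun i => Nat.le_floor (hp i).pX) hcond
  linarith

/-- the sum over the products of the prescribed primes -/
theorem count {k : ℕ} (hk : 3 ≤ k) {X l : ℝ} (hX : 1 ≤ X) (hl : 2 * (k : ℝ) ≤ l) {n K E : ℕ}
    (hn : 0 < n) (F : Finset (Fin 3 → ℕ)) (hF : ∀ t ∈ F, Tr t ∧ Scale k l t)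
    (hrad : ∀ t ∈ F, rr t 0 + rr t 1 + rr t 2 ≤ Real.log X) (hK : ∀ t ∈ F, t 2 ≤ 2 ^ K)
    (hE : ∀ t ∈ F, ∀ p, vv t p ≤ E)
    (hcond : ∀ m : ℕ, 1 ≤ m → (m : ℝ) ≤ X →
      8 * m * (n * K + 1) ^ (2 * m.primeFactors.card) < 2 ^ n)
    (hbad : ∀ e : ℕ, e ≤ E → Real.log e + n * Real.log ⌊X⌋₊ < 3 / 4 * (l / k)) :
    F.card ≤ ∑ m ∈ Finset.Icc 1 ⌊X ^ (2 / 3 + 1 / (k : ℝ))⌋₊,
      2 ^ (18 * k * (m.primeFactors.card + 1)) *
        (1 + 27 * (2 ^ m.primeFactors.card * ((E + 1) * n))) := by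
  classical
  have hk0 : (0 : ℝ) < k := by positivity
  have hk1 : 1 ≤ k := by omega
  have hk2 : (3 : ℝ) ≤ k := by exact_mod_cast hk
  have hX0 : 0 < X := by linarith
  have hexp : 2 / 3 + 1 / (k : ℝ) ≤ 1 := by
    have : 1 / (k : ℝ) ≤ 1 / 3 := one_div_le_one_div_of_le (by norm_num) hk2
    linarith
  have hXX : X ^ (2 / 3 + 1 / (k : ℝ)) ≤ X := by
    calc X ^ (2 / 3 + 1 / (k : ℝ)) ≤ X ^ (1 : ℝ) := Real.rpow_le_rpow_of_exponent_le hX hexp
      _ = X := Real.rpow_one X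
  set M : ℕ := ⌊X ^ (2 / 3 + 1 / (k : ℝ))⌋₊ with hM
  -- the pieces
  set FL : ℕ → Finset (Fin 3 → ℕ) := fun m => F.filter fun t => Light k m.primeFactors t with hFL
  set FP : ℕ → Fin 3 × Fin 3 × Fin 3 → Finset ℕ → ℕ → Finset (Fin 3 → ℕ) := fun m σ Q e =>
    F.filter fun t => σ.1 ≠ σ.2.1 ∧ σ.2.1 ≠ σ.2.2 ∧ σ.1 ≠ σ.2.2 ∧
      ∃ p, InP k m.primeFactors Q σ.1 σ.2.1 σ.2.2 e X l t p with hFP
  set G : ℕ → Finset (Fin 3 → ℕ) := fun m => FL m ∪
    (Finset.univ : Finset (Fin 3 × Fin 3 × Fin 3)).biUnion (fun σ =>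
      m.primeFactors.powerset.biUnion (fun Q => (Finset.range (E + 1)).biUnion (fun e =>
        FP m σ Q e))) with hG
  have hsub : F ⊆ (Finset.Icc 1 M).biUnion G := by
    intro t ht
    obtain ⟨h1, h2⟩ := hF t ht
    have h3 := hrad t ht
    have hr0 := rr_nonneg t 0
    have hr1 := rr_nonneg t 1
    have hr2 := rr_nonneg t 2
    have hpX : ∀ j, ∀ p ∈ (t j).primeFactors, (p : ℝ) ≤ X := by
      intro j p hp
      have hp0 : (0 : ℝ) < p := by exact_mod_cast (Nat.prime_of_mem_primeFactors hp).pos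
      have h4 : Real.log p ≤ rr t j :=
        Finset.single_le_sum (f := fun q : ℕ => Real.log (q : ℝ))
          (fun q hq => log_prime_nonneg (Nat.prime_of_mem_primeFactors hq)) hp
      have h5 : rr t j ≤ Real.log X := by
        refine le_trans ?_ h3
        fin_cases j
        · show rr t 0 ≤ _; linarith
        · show rr t 1 ≤ _; linarith
        · show rr t 2 ≤ _; linarith
      exact (Real.log_le_log_iff hp0 hX0).1 (h4.trans h5)
    obtain ⟨S, hS, hgood, hsum⟩ := choice (k := k) (by omega) (X := X) (l := l) (by linarith)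
      h1 h2 hpX
    have hpf : (∏ q ∈ S, q).primeFactors = S := Nat.primeFactors_prod hS
    have hmpos : 0 < ∏ q ∈ S, q := Finset.prod_pos fun q hq => (hS q hq).pos
    have hlogm : Real.log ((∏ q ∈ S, q : ℕ) : ℝ) = ∑ q ∈ S, Real.log q := by
      push_cast
      rw [Real.log_prod]
      intro q hq
      exact_mod_cast (hS q hq).ne_zero
    have hmM : ((∏ q ∈ S, q : ℕ) : ℝ) ≤ X ^ (2 / 3 + 1 / (k : ℝ)) := by
      rw [← Real.log_le_log_iff (by exact_mod_cast hmpos) (Real.rpow_pos_of_pos hX0 _),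
        Real.log_rpow hX0, hlogm]
      refine hsum.trans (mul_le_mul_of_nonneg_left h3 ?_)
      positivity
    rw [Finset.mem_biUnion]
    refine ⟨∏ q ∈ S, q, Finset.mem_Icc.2 ⟨hmpos, Nat.le_floor hmM⟩, ?_⟩
    rcases hgood with hg | ⟨A, B, C, Q, e, p, hAB, hBC, hAC, hP⟩
    · refine Finset.mem_union_left _ (Finset.mem_filter.2 ⟨ht, ?_⟩)
      rw [hpf]
      exact hg
    · refine Finset.mem_union_right _ ?_
      rw [Finset.mem_biUnion]
      refine ⟨(A, B, C), Finset.mem_univ _, ?_⟩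
      rw [Finset.mem_biUnion]
      refine ⟨Q, ?_, ?_⟩
      · rw [hpf, Finset.mem_powerset]
        exact hP.QS
      · rw [Finset.mem_biUnion]
        refine ⟨e, Finset.mem_range.2 (Nat.lt_succ_of_le ?_), Finset.mem_filter.2
          ⟨ht, hAB, hBC, hAC, p, ?_⟩⟩
        · rw [← hP.ve]
          exact hE t ht p
        · rw [hpf]
          exact hP
  refine (Finset.card_le_card hsub).trans (Finset.card_biUnion_le.trans
    (Finset.sum_le_sum fun m hm => ?_))
  obtain ⟨hm1, hm2⟩ := Finset.mem_Icc.1 hm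
  have hmX : (m : ℝ) ≤ X := by
    have h1 : (m : ℝ) ≤ (M : ℝ) := by exact_mod_cast hm2
    refine h1.trans (le_trans ?_ hXX)
    exact Nat.floor_le (by positivity)
  have hSp : ∀ q ∈ m.primeFactors, q.Prime := fun q hq => Nat.prime_of_mem_primeFactors hq
  have c1 : (FL m).card ≤ 2 ^ (18 * k * (m.primeFactors.card + 1)) :=
    card_light hk1 hSp hl _ fun t ht => by
      obtain ⟨h1, h2⟩ := Finset.mem_filter.1 ht
      exact ⟨(hF t h1).1, (hF t h1).2, h2⟩
  have c2 : ∀ σ Q e, e ∈ Finset.range (E + 1) → (FP m σ Q e).card ≤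
      2 ^ (18 * k * (m.primeFactors.card + 1)) * n := by
    intro σ Q e he
    by_cases hσ : σ.1 ≠ σ.2.1 ∧ σ.2.1 ≠ σ.2.2 ∧ σ.1 ≠ σ.2.2
    · obtain ⟨hAB, hBC, hAC⟩ := hσ
      refine card_P hk1 (S := m.primeFactors) (Q := Q) (X := X) (e := e) (K := K) hAB hBC hAC hSp
        hl hn _ ?_ ?_ ?_ (hbad e (Nat.lt_succ_iff.1 (Finset.mem_range.1 he)))
      · intro t ht
        exact (Finset.mem_filter.1 ht).2.2.2.2
      · intro t ht
        exact hK t (Finset.mem_filter.1 ht).1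
      · refine lt_of_le_of_lt (Nat.mul_le_mul_right _ (Nat.mul_le_mul_left _ ?_))
          (hcond m hm1 hmX)
        exact Nat.le_of_dvd hm1 (Nat.prod_primeFactors_dvd m)
    · have : FP m σ Q e = ∅ := by
        rw [Finset.eq_empty_iff_forall_notMem]
        intro t ht
        obtain ⟨_, a1, a2, a3, _⟩ := Finset.mem_filter.1 ht
        exact hσ ⟨a1, a2, a3⟩
      rw [this, Finset.card_empty]
      exact Nat.zero_le _
  calc (G m).card ≤ (FL m).card + ((Finset.univ : Finset (Fin 3 × Fin 3 × Fin 3)).biUnion (fun σ =>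
      m.primeFactors.powerset.biUnion (fun Q => (Finset.range (E + 1)).biUnion (fun e =>
        FP m σ Q e)))).card := Finset.card_union_le _ _
    _ ≤ 2 ^ (18 * k * (m.primeFactors.card + 1)) +
        27 * (2 ^ m.primeFactors.card * ((E + 1) *
          (2 ^ (18 * k * (m.primeFactors.card + 1)) * n))) := by
        refine Nat.add_le_add c1 ?_
        refine (Finset.card_biUnion_le_card_mul _ _ (2 ^ m.primeFactors.card * ((E + 1) *
          (2 ^ (18 * k * (m.primeFactors.card + 1)) * n))) ?_).trans (le_of_eq ?_)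
        · intro σ _
          refine (Finset.card_biUnion_le_card_mul _ _ ((E + 1) *
            (2 ^ (18 * k * (m.primeFactors.card + 1)) * n)) ?_).trans (le_of_eq ?_)
          · intro Q _
            refine (Finset.card_biUnion_le_card_mul _ _
              (2 ^ (18 * k * (m.primeFactors.card + 1)) * n) ?_).trans (le_of_eq ?_)
            · intro e he
              exact c2 σ Q e he
            · rw [Finset.card_range]
          · rw [Finset.card_powerset]
        · rw [Finset.card_univ]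
          rfl
    _ = _ := by ring

end Pool.Agent.TH867.SR
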