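import Pool.Agent.H59.L.S8.TH867.SR.Cell
import Pool.Agent.H59.L.S8.W511.RA.PG2
import Pool.Agent.H59.L.S8.W12.RA.LTE

/-! The pigeonhole argument with products of primes, when only a part `Q` of the member `t A` is
prescribed (helper867). -/

set_option autoImplicit false

namespace Pool.Agent.TH867.SR

open Finset

lemma eq_prod {S : Finset ℕ} {y : ℕ} (hy : y ≠ 0) (hS : y.primeFactors ⊆ S) :
    y = ∏ q ∈ S, q ^ y.factorization q := by
  conv_lhs => rw [← Nat.prod_factorization_pow_eq_self hy]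
  refine Finset.prod_subset hS (fun q _ hq => ?_)
  have h0 : y.factorization q = 0 := by
    rw [← Finsupp.notMem_support_iff, Nat.support_factorization]
    exact hq
  rw [h0]
  exact pow_zero q

lemma dvd_pow_K {S : Finset ℕ} {x K : ℕ} (hx : x ≠ 0) (hS : x.primeFactors ⊆ S)
    (hSp : ∀ q ∈ S, q.Prime) (hxK : x ≤ 2 ^ K) : x ∣ (∏ q ∈ S, q) ^ K := by
  have h1 : (∏ q ∈ S, q) ^ K = ∏ q ∈ S, q ^ K := by rw [Finset.prod_pow]
  rw [h1]
  conv_lhs => rw [eq_prod hx hS]
  refine Finset.prod_dvd_prod_of_dvd _ _ (fun q hq => ?_)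
  refine pow_dvd_pow q ?_
  have h2 : q ^ x.factorization q ≤ x := Nat.ordProj_le q hx
  have h3 : 2 ^ x.factorization q ≤ q ^ x.factorization q :=
    Nat.pow_le_pow_left (hSp q hq).two_le _
  exact (Nat.pow_le_pow_iff_right (by norm_num : 1 < 2)).1 (h3.trans (h2.trans hxK))

theorem log_eq_sum' {y : ℕ} (hy : y ≠ 0) :
    Real.log (y : ℝ) = ∑ q ∈ y.primeFactors, (y.factorization q : ℝ) * Real.log q := by
  rw [Real.log_nat_eq_sum_factorization, Finsupp.sum, Nat.support_factorization]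

theorem side_sum {t : Fin 3 → ℕ} (h : Tr t) (j : Fin 3) :
    ∑ q ∈ (t j).primeFactors, (vv t q : ℝ) * Real.log q = Real.log (t j) := by
  rw [log_eq_sum' (h.pos' j).ne']
  refine Finset.sum_congr rfl fun q hq => ?_
  rw [h.vv_eq (Nat.prime_of_mem_primeFactors hq) (Nat.dvd_of_mem_primeFactors hq)]

theorem perm3 {A B C : Fin 3} (hAB : A ≠ B) (hBC : B ≠ C) (hAC : A ≠ C) (f : Fin 3 → ℝ) :
    f 0 + f 1 + f 2 = f A + f B + f C := by
  have h : (Finset.univ : Finset (Fin 3)) = {A, B, C} := by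
    revert A B C; decide
  have h1 : ∑ j, f j = f 0 + f 1 + f 2 := Fin.sum_univ_three f
  rw [← h1, h, Finset.sum_insert, Finset.sum_insert, Finset.sum_singleton]
  · ring
  · simpa using hBC
  · simp [hAB, hAC]

theorem lin3 {A B C : Fin 3} (hAB : A ≠ B) (hBC : B ≠ C) (hAC : A ≠ C) :
    ∃ s : ℤ, (s = 1 ∨ s = -1) ∧ ∀ t : Fin 3 → ℕ, Tr t → (t A : ℤ) ∣ (t B : ℤ) - s * t C := by
  by_cases hA : A = 2
  · refine ⟨-1, Or.inr rfl, fun t h => ?_⟩
    have h2 : (t 0 : ℤ) + t 1 = t 2 := by exact_mod_cast h.add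
    subst hA
    have hBC' : (B = 0 ∧ C = 1) ∨ (B = 1 ∧ C = 0) := by
      revert B C; decide
    rcases hBC' with ⟨rfl, rfl⟩ | ⟨rfl, rfl⟩
    · rw [← h2]; exact ⟨1, by ring⟩
    · rw [← h2]; exact ⟨1, by ring⟩
  · refine ⟨1, Or.inl rfl, fun t h => ?_⟩
    have h2 : (t 0 : ℤ) + t 1 = t 2 := by exact_mod_cast h.add
    have hcase : (A = 0 ∧ B = 1 ∧ C = 2) ∨ (A = 0 ∧ B = 2 ∧ C = 1) ∨ (A = 1 ∧ B = 0 ∧ C = 2) ∨
        (A = 1 ∧ B = 2 ∧ C = 0) := by
      revert A B C; decide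
    rcases hcase with ⟨rfl, rfl, rfl⟩ | ⟨rfl, rfl, rfl⟩ | ⟨rfl, rfl, rfl⟩ | ⟨rfl, rfl, rfl⟩
    · rw [← h2]; exact ⟨-1, by ring⟩
    · rw [← h2]; exact ⟨1, by ring⟩
    · rw [← h2]; exact ⟨-1, by ring⟩
    · rw [← h2]; exact ⟨1, by ring⟩

/-- the triples `t` with a distinguished prime `p ∣ t B`; all the other primes of `t B` and those of
`t C` are in `S`, as well as primes `Q` of `t A` with a large part -/
structure InP (k : ℕ) (S Q : Finset ℕ) (A B C : Fin 3) (e : ℕ) (X l : ℝ) (t : Fin 3 → ℕ)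
    (p : ℕ) : Prop where
  tr : Tr t
  sc : Scale k l t
  pp : p.Prime
  pS : p ∉ S
  pX : (p : ℝ) ≤ X
  pB : p ∣ t B
  ve : vv t p = e
  fB : (t B).primeFactors ⊆ insert p S
  fC : (t C).primeFactors ⊆ S
  QS : Q ⊆ S
  QA : ∀ q ∈ Q, q ∣ t A
  wt : Real.log (t 2) / k ≤ ∑ q ∈ Q, (vv t q : ℝ) * Real.log q

theorem log_member_le {t : Fin 3 → ℕ} (h : Tr t) (j : Fin 3) :
    Real.log (t j : ℝ) ≤ Real.log (t 2 : ℝ) :=
  Real.log_le_log (by exact_mod_cast h.pos' j) (by exact_mod_cast h.le2 j)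

/-- two sides and a large part of the third one are light -/
theorem light_of {k : ℕ} {S U Q : Finset ℕ} {A B C : Fin 3} (hAB : A ≠ B) (hBC : B ≠ C)
    (hAC : A ≠ C) {t : Fin 3 → ℕ} (h : Tr t) (hU : ∀ q ∈ U, q.Prime)
    (fB : (t B).primeFactors ⊆ U) (fC : (t C).primeFactors ⊆ U) (QS : Q ⊆ U)
    (QA : ∀ q ∈ Q, q ∣ t A) (wt : Real.log (t 2) / k ≤ ∑ q ∈ Q, (vv t q : ℝ) * Real.log q) :
    Light k U t := by
  classical
  have hd1 : Disjoint (t B).primeFactors (t C).primeFactors :=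
    (h.cop' hBC).disjoint_primeFactors
  have hd2 : Disjoint ((t B).primeFactors ∪ (t C).primeFactors) Q := by
    rw [Finset.disjoint_left]
    intro q hq hqQ
    rcases Finset.mem_union.1 hq with h1 | h1
    · exact hAB (h.uniq (Nat.prime_of_mem_primeFactors h1) (QA q hqQ)
        (Nat.dvd_of_mem_primeFactors h1))
    · exact hAC (h.uniq (Nat.prime_of_mem_primeFactors h1) (QA q hqQ)
        (Nat.dvd_of_mem_primeFactors h1))
  have hsub : ((t B).primeFactors ∪ (t C).primeFactors) ∪ Q ⊆ U :=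
    Finset.union_subset (Finset.union_subset fB fC) QS
  have h1 : ∑ q ∈ ((t B).primeFactors ∪ (t C).primeFactors) ∪ Q, (vv t q : ℝ) * Real.log q ≤
      ∑ q ∈ U, (vv t q : ℝ) * Real.log q := by
    refine Finset.sum_le_sum_of_subset_of_nonneg hsub fun q hq _ => ?_
    exact mul_nonneg (Nat.cast_nonneg _) (log_prime_nonneg (hU q hq))
  rw [Finset.sum_union hd2, Finset.sum_union hd1, side_sum h, side_sum h] at h1
  have h2 := perm3 hAB hBC hAC (fun j => Real.log (t j : ℝ))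
  have h3 := log_member_le h A
  rw [Light, log_N3 h]
  have e2 : (1 - 1 / (k : ℝ)) * Real.log (t 2) = Real.log (t 2) - Real.log (t 2) / k := by ring
  rw [e2]
  linarith

theorem InP.light {k : ℕ} {S Q : Finset ℕ} {A B C : Fin 3} {e : ℕ} {X l : ℝ} {t : Fin 3 → ℕ}
    {p : ℕ} (hAB : A ≠ B) (hBC : B ≠ C) (hAC : A ≠ C) (hS : ∀ q ∈ S, q.Prime)
    (h : InP k S Q A B C e X l t p) : Light k (insert p S) t := by
  refine light_of (S := S) hAB hBC hAC h.tr (fun q hq => ?_) h.fB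
    (h.fC.trans (Finset.subset_insert _ _)) (h.QS.trans (Finset.subset_insert _ _)) h.QA h.wt
  rcases Finset.mem_insert.1 hq with rfl | hq
  · exact h.pp
  · exact hS q hq

/-- the prime `p` and the cell determine the triple -/
theorem InP.inj {k : ℕ} (hk : 1 ≤ k) {S Q : Finset ℕ} {A B C : Fin 3} {e : ℕ} {X l : ℝ}
    {t t' : Fin 3 → ℕ} {p : ℕ} (hAB : A ≠ B) (hBC : B ≠ C) (hAC : A ≠ C)
    (hS : ∀ q ∈ S, q.Prime) (hl : 2 * (k : ℝ) ≤ l) (h : InP k S Q A B C e X l t p)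
    (h' : InP k S Q A B C e X l t' p) (hN : Near1 S (prec k l S) t t') : t = t' := by
  have hk0 : (0 : ℝ) < k := by exact_mod_cast hk
  have hl0 : 0 ≤ l := by linarith
  have hS' : ∀ q ∈ insert p S, q.Prime := by
    intro q hq
    rcases Finset.mem_insert.1 hq with rfl | hq
    · exact h.pp
    · exact hS q hq
  refine gap hk hS' hl h.tr h'.tr h.sc h'.sc (h.light hAB hBC hAC hS) (h'.light hAB hBC hAC hS) ?_
  have hN1 : Near1 (insert p S) (prec k l S) t t' := by
    refine ⟨fun q hq j => ?_, fun q hq => ?_⟩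
    · rcases Finset.mem_insert.1 hq with rfl | hq
      · constructor
        · intro hd
          rw [h.tr.uniq h.pp hd h.pB]; exact h'.pB
        · intro hd
          rw [h'.tr.uniq h.pp hd h'.pB]; exact h.pB
      · exact hN.side q hq j
    · rcases Finset.mem_insert.1 hq with rfl | hq
      · rw [h.ve, h'.ve, sub_self, zero_mul, abs_zero]
        exact prec_nonneg hl0 S
      · exact hN.dist q hq
  refine hN1.near ?_
  rw [Finset.card_insert_of_notMem h.pS]
  push_cast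
  exact (prec_mul hk S).le

/-- the pigeonhole argument -/
theorem pig {k : ℕ} (hk : 1 ≤ k) {S Q : Finset ℕ} {A B C : Fin 3} {e : ℕ} {X l : ℝ} {n K Y : ℕ}
    {t : Fin n → Fin 3 → ℕ} {p : Fin n → ℕ} (hAB : A ≠ B) (hBC : B ≠ C) (hAC : A ≠ C)
    (hS : ∀ q ∈ S, q.Prime) (hl : 0 ≤ l) (hn : 0 < n)
    (h : ∀ i, InP k S Q A B C e X l (t i) (p i))
    (hN : ∀ i j, Near1 S (prec k l S) (t i) (t j)) (hinj : Function.Injective p)
    (hK : ∀ i, t i 2 ≤ 2 ^ K) (hY : ∀ i, p i ≤ Y)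
    (hcond : 8 * (∏ q ∈ S, q) * (n * K + 1) ^ (2 * S.card) < 2 ^ n) :
    3 / 4 * (l / k) ≤ Real.log e + n * Real.log Y := by
  classical
  have hk0 : (0 : ℝ) < k := by exact_mod_cast hk
  have hne : Nonempty (Fin n) := ⟨⟨0, hn⟩⟩
  obtain ⟨m, hm⟩ : ∃ m, m = ∏ q ∈ S, q := ⟨_, rfl⟩
  have hmpos : 0 < m := by rw [hm]; exact Finset.prod_pos (fun q hq => (hS q hq).pos)
  have hmpf : m.primeFactors = S := by rw [hm]; exact Nat.primeFactors_prod hS
  have hsq : Squarefree m := by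
    rw [hm]
    refine Finset.squarefree_prod_of_pairwise_isCoprime ?_ (fun q hq => (hS q hq).squarefree)
    intro q hq r hr hqr
    exact Nat.coprime_iff_isRelPrime.1 ((Nat.coprime_primes (hS q hq) (hS r hr)).2 hqr)
  choose j hj using fun q : ℕ => Finite.exists_min (fun i : Fin n => vv (t i) q)
  obtain ⟨G, hG⟩ : ∃ G, G = ∏ q ∈ Q, q ^ vv (t (j q)) q := ⟨_, rfl⟩
  have hQp : ∀ i, ∀ q ∈ Q, q.Prime := fun i q hq => hS q ((h i).QS hq)
  have hGA : ∀ i, G ∣ t i A := by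
    intro i
    rw [hG]
    refine Finset.prod_dvd_of_isRelPrime ?_ ?_
    · intro q hq r hr hqr
      exact Nat.coprime_iff_isRelPrime.1 (Nat.coprime_pow_primes _ _ (hQp i q hq) (hQp i r hr) hqr)
    · intro q hq
      refine (pow_dvd_pow q (hj q i)).trans ?_
      rw [(h i).tr.vv_eq (hQp i q hq) ((h i).QA q hq)]
      exact Nat.ordProj_dvd _ _
  obtain ⟨i0⟩ := hne
  have hGpos : 0 < G := Nat.pos_of_dvd_of_pos (hGA i0) ((h i0).tr.pos' A)
  -- size of `G`
  have hGlog : 3 / 4 * (l / k) ≤ Real.log (G : ℝ) := by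
    have h1 : ∀ q ∈ Q, (vv (t i0) q : ℝ) * Real.log q - prec k l S ≤
        (vv (t (j q)) q : ℝ) * Real.log q := by
      intro q hq
      have h2 := (hN i0 (j q)).dist q ((h i0).QS hq)
      have h3 := (le_abs_self _).trans h2
      rw [sub_mul] at h3
      linarith
    have h2 := Finset.sum_le_sum h1
    rw [Finset.sum_sub_distrib, Finset.sum_const, nsmul_eq_mul] at h2
    have h3 : (Q.card : ℝ) * prec k l S ≤ l / (4 * k) := by
      refine le_trans ?_ (prec_card hk hl S)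
      refine mul_le_mul_of_nonneg_right ?_ (prec_nonneg hl S)
      exact_mod_cast Finset.card_le_card (h i0).QS
    rw [hG, log_prod_pow (hQp i0)]
    have h4 := (h i0).wt
    have h5 := (h i0).sc.1
    have h6 : l / k ≤ Real.log (t i0 2) / k := div_le_div_of_nonneg_right h5 hk0.le
    have e4 : l / k = 4 * (l / (4 * k)) := by field_simp
    linarith
  obtain ⟨s, hs, hlin⟩ := lin3 hAB hBC hAC
  have he1 : 1 ≤ e := by
    rw [← (h i0).ve, (h i0).tr.vv_eq (h i0).pp (h i0).pB]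
    exact (h i0).pp.factorization_pos_of_dvd ((h i0).tr.pos' B).ne' (h i0).pB
  have hle : G ≤ e * Y ^ n := by
    refine Pool.Agent.W511.RA.PG2.tPG2 Pool.Agent.W12.RA.tLTE m e n K G Y s p
      (fun i => t i B / p i ^ e) (fun i => t i C) hsq he1 hs
      (fun i => (h i).pp) ?_ hY hinj ?_ ?_ ?_ ?_ ?_ ?_
    · intro i hd
      have : p i ∈ m.primeFactors := Nat.mem_primeFactors.2 ⟨(h i).pp, hd, hmpos.ne'⟩
      rw [hmpf] at this
      exact (h i).pS this
    · intro i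
      have hB0 : t i B ≠ 0 := ((h i).tr.pos' B).ne'
      have hve : (t i B).factorization (p i) = e := by
        rw [← (h i).tr.vv_eq (h i).pp (h i).pB]; exact (h i).ve
      show t i B / p i ^ e ∣ m ^ K
      rw [← hve, hm]
      refine dvd_pow_K (Nat.ordCompl_pos _ hB0).ne' ?_ hS ?_
      · intro q hq
        obtain ⟨hq1, hq2, _⟩ := Nat.mem_primeFactors.1 hq
        have h1 : q ∈ (t i B).primeFactors :=
          Nat.mem_primeFactors.2 ⟨hq1, hq2.trans (Nat.ordCompl_dvd _ _), hB0⟩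
        rcases Finset.mem_insert.1 ((h i).fB h1) with h2 | h2
        · exfalso
          rw [h2] at hq2
          exact Nat.not_dvd_ordCompl (h i).pp hB0 hq2
        · exact h2
      · exact (Nat.div_le_self _ _).trans (((h i).tr.le2 B).trans (hK i))
    · intro i
      rw [hm]
      exact dvd_pow_K ((h i).tr.pos' C).ne' (h i).fC hS (((h i).tr.le2 C).trans (hK i))
    · intro i
      have hve : (t i B).factorization (p i) = e := by
        rw [← (h i).tr.vv_eq (h i).pp (h i).pB]; exact (h i).ve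
      have h1 : Nat.Coprime (t i B) (t i A) := (h i).tr.cop' hAB.symm
      show Nat.Coprime (t i B / p i ^ e) G
      rw [← hve]
      exact Nat.Coprime.coprime_dvd_left (Nat.ordCompl_dvd _ _)
        (Nat.Coprime.coprime_dvd_right (hGA i) h1)
    · intro q hq hqG
      rw [hG] at hqG
      obtain ⟨r, hr, hqr⟩ := (hq.prime.dvd_finsetProd_iff _).1 hqG
      have h1 : q = r := (Nat.prime_dvd_prime_iff_eq hq (hQp i0 r hr)).1 (hq.dvd_of_dvd_pow hqr)
      rw [h1, hm]
      exact Finset.dvd_prod_of_mem _ ((h i0).QS hr)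
    · intro i
      have hve : (t i B).factorization (p i) = e := by
        rw [← (h i).tr.vv_eq (h i).pp (h i).pB]; exact (h i).ve
      have h1 : p i ^ e * (t i B / p i ^ e) = t i B := by
        rw [← hve]; exact Nat.ordProj_mul_ordCompl_eq_self _ _
      have h2 : (p i : ℤ) ^ e * ((t i B / p i ^ e : ℕ) : ℤ) = (t i B : ℤ) := by
        exact_mod_cast h1
      show (G : ℤ) ∣ (p i : ℤ) ^ e * ((t i B / p i ^ e : ℕ) : ℤ) - s * (t i C : ℤ)
      rw [h2]
      exact (Int.natCast_dvd_natCast.2 (hGA i)).trans (hlin (t i) (h i).tr)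
    · rw [hmpf, hm]
      exact hcond
  have hYpos : 0 < Y := lt_of_lt_of_le (h i0).pp.pos (hY i0)
  refine hGlog.trans ?_
  have h1 : (G : ℝ) ≤ (e : ℝ) * (Y : ℝ) ^ n := by exact_mod_cast hle
  have hGR : (0 : ℝ) < G := by exact_mod_cast hGpos
  have heR : (0 : ℝ) < e := by exact_mod_cast he1
  have hYR : (0 : ℝ) < Y := by exact_mod_cast hYpos
  have h2 := Real.log_le_log hGR h1
  rwa [Real.log_mul heR.ne' (by positivity), Real.log_pow] at h2

end Pool.Agent.TH867.SR
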