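import Pool.Agent.H59.L.S8.TH867.SR.Count

/-! Numerical conditions (helper867). -/

set_option autoImplicit false

namespace Pool.Agent.TH867.SR

open Finset

/-- `L² log ℓ` is small compared with `ℓ ≥ L ^ (2 + η)` -/
theorem sq_log_small {η : ℝ} (hη : 0 < η) {T : ℝ} (hT : 0 < T) : ∃ L0 : ℝ, 3 ≤ L0 ∧
    ∀ L : ℝ, L0 ≤ L → ∀ l : ℝ, L ^ (2 + η) ≤ l → 1 ≤ Real.log l ∧ L ≤ l ∧
      T * (L ^ 2 * Real.log l) ≤ l := by
  obtain ⟨a, ha⟩ : ∃ a : ℝ, a = η / (2 * (2 + η)) := ⟨_, rfl⟩
  have ha0 : 0 < a := by rw [ha]; positivity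
  refine ⟨max 3 ((T / a) ^ (1 / a)), le_max_left _ _, ?_⟩
  intro L hL l hl
  have hL3 : 3 ≤ L := (le_max_left _ _).trans hL
  have hLT : (T / a) ^ (1 / a) ≤ L := (le_max_right _ _).trans hL
  have hL1 : 1 ≤ L := by linarith
  have hL0 : 0 < L := by linarith
  have hLl : L ≤ l := by
    refine le_trans ?_ hl
    calc L = L ^ (1 : ℝ) := (Real.rpow_one L).symm
      _ ≤ L ^ (2 + η) := Real.rpow_le_rpow_of_exponent_le hL1 (by linarith)
  have hl3 : 3 ≤ l := hL3.trans hLl
  have hl0 : 0 < l := by linarith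
  have hlog : 1 ≤ Real.log l := by
    rw [Real.le_log_iff_exp_le hl0]
    have := Real.exp_one_lt_d9
    linarith
  refine ⟨hlog, hLl, ?_⟩
  have h1 : L ≤ l ^ (1 / (2 + η)) := by
    have h2 : (L ^ (2 + η)) ^ (1 / (2 + η)) ≤ l ^ (1 / (2 + η)) :=
      Real.rpow_le_rpow (by positivity) hl (by positivity)
    rwa [← Real.rpow_mul hL0.le, mul_one_div_cancel (by positivity), Real.rpow_one] at h2
  have h2 : L ^ 2 ≤ l ^ (2 / (2 + η)) := by
    have h3 : L ^ 2 ≤ (l ^ (1 / (2 + η))) ^ 2 := pow_le_pow_left₀ hL0.le h1 2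
    rw [← Real.rpow_natCast (l ^ (1 / (2 + η))), ← Real.rpow_mul hl0.le] at h3
    have e1 : 1 / (2 + η) * ((2 : ℕ) : ℝ) = 2 / (2 + η) := by push_cast; ring
    rwa [e1] at h3
  have h3 : Real.log l ≤ l ^ a / a := Real.log_le_rpow_div hl0.le ha0
  have h4 : T / a ≤ l ^ a := by
    have h5 : ((T / a) ^ (1 / a)) ^ a ≤ l ^ a :=
      Real.rpow_le_rpow (by positivity) (hLT.trans hLl) ha0.le
    rwa [← Real.rpow_mul (by positivity), one_div_mul_cancel ha0.ne', Real.rpow_one] at h5
  have h5 : l ^ (2 / (2 + η)) * l ^ a * l ^ a = l := by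
    rw [← Real.rpow_add hl0, ← Real.rpow_add hl0]
    have e1 : 2 / (2 + η) + a + a = 1 := by
      rw [ha]; field_simp; ring
    rw [e1, Real.rpow_one]
  have hp1 : 0 < l ^ (2 / (2 + η)) := Real.rpow_pos_of_pos hl0 _
  have hp2 : 0 < l ^ a := Real.rpow_pos_of_pos hl0 _
  calc T * (L ^ 2 * Real.log l) ≤ T * (l ^ (2 / (2 + η)) * (l ^ a / a)) := by
        refine mul_le_mul_of_nonneg_left ?_ hT.le
        exact mul_le_mul h2 h3 (by linarith) hp1.le
    _ = l ^ (2 / (2 + η)) * l ^ a * (T / a) := by ring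
    _ ≤ l ^ (2 / (2 + η)) * l ^ a * l ^ a := mul_le_mul_of_nonneg_left h4 (by positivity)
    _ = l := h5

/-- the two numerical conditions -/
theorem numeric {k : ℕ} (hk : 1 ≤ k) {L l : ℝ} (hL : 3 ≤ L) (hlog : 1 ≤ Real.log l) (hLl : L ≤ l)
    (hT : (100 * (k : ℝ)) * (L ^ 2 * Real.log l) ≤ l) {n K E : ℕ}
    (hn1 : 20 * L * Real.log l ≤ n) (hn2 : (n : ℝ) ≤ 20 * L * Real.log l + 1)
    (hK : (K : ℝ) ≤ 2 * l) (hE : (E : ℝ) ≤ 5 * l) {X : ℝ} (hX : 1 ≤ X) (hXL : Real.log X = L) :
    (∀ m : ℕ, 1 ≤ m → (m : ℝ) ≤ X →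
      8 * m * (n * K + 1) ^ (2 * m.primeFactors.card) < 2 ^ n) ∧
    (∀ e : ℕ, e ≤ E → Real.log e + n * Real.log ⌊X⌋₊ < 3 / 4 * (l / k)) := by
  have hk1 : (1 : ℝ) ≤ k := by exact_mod_cast hk
  have hk0 : (0 : ℝ) < k := by linarith
  have hl3 : 3 ≤ l := hL.trans hLl
  have l2a := Real.log_two_gt_d9
  have l2b := Real.log_two_lt_d9
  obtain ⟨lam, hlam⟩ : ∃ lam, lam = Real.log l := ⟨_, rfl⟩
  rw [← hlam] at hlog hT hn1 hn2
  have hLlam : L ≤ L * lam := by nlinarith
  have hLL : L * lam ≤ L ^ 2 * lam := by nlinarith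
  have hlamL : lam ≤ L * lam := by nlinarith
  have hbase : 100 * (L ^ 2 * lam) ≤ l := by
    refine le_trans ?_ hT
    have h0 : 0 ≤ L ^ 2 * lam := by positivity
    nlinarith
  refine ⟨?_, ?_⟩
  · intro m hm hmX
    have hm0 : (0 : ℝ) < m := by exact_mod_cast hm
    have hmL : Real.log m ≤ L := by rw [← hXL]; exact Real.log_le_log hm0 hmX
    obtain ⟨om, hom⟩ : ∃ om, om = m.primeFactors.card := ⟨_, rfl⟩
    rw [← hom]
    have hom2 : 2 ^ om ≤ m := by
      rw [hom]
      calc 2 ^ m.primeFactors.card = ∏ _q ∈ m.primeFactors, 2 := by rw [Finset.prod_const]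
        _ ≤ ∏ q ∈ m.primeFactors, q :=
          Finset.prod_le_prod' (fun q hq => (Nat.prime_of_mem_primeFactors hq).two_le)
        _ ≤ m := Nat.le_of_dvd hm (Nat.prod_primeFactors_dvd m)
    have homL : (om : ℝ) * Real.log 2 ≤ L := by
      have h1 : Real.log ((2 : ℝ) ^ om) ≤ Real.log m :=
        Real.log_le_log (by positivity) (by exact_mod_cast hom2)
      rw [Real.log_pow] at h1
      linarith
    have hom3 : (om : ℝ) ≤ 3 / 2 * L := by nlinarith
    have hnl : (n : ℝ) ≤ l := by nlinarith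
    have hnK : (n : ℝ) * K + 1 ≤ l ^ 3 := by
      have h1 : (n : ℝ) * K ≤ l * (2 * l) := mul_le_mul hnl hK (by positivity) (by linarith)
      have h2 : 3 * l ^ 2 ≤ l ^ 3 := by
        have : l ^ 3 = l * l ^ 2 := by ring
        rw [this]
        exact mul_le_mul_of_nonneg_right hl3 (by positivity)
      have h3 : 3 * 3 ≤ l ^ 2 := by
        rw [sq]
        exact mul_le_mul hl3 hl3 (by norm_num) (by linarith)
      have h4 : l * (2 * l) = 2 * l ^ 2 := by ring
      linarith
    have hlog3 : Real.log ((n : ℝ) * K + 1) ≤ 3 * lam := by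
      have h1 : Real.log ((n : ℝ) * K + 1) ≤ Real.log (l ^ 3) :=
        Real.log_le_log (by positivity) hnK
      rw [Real.log_pow] at h1
      rw [hlam]
      push_cast at h1
      exact h1
    have hR : (8 : ℝ) * m * ((n : ℝ) * K + 1) ^ (2 * om) < 2 ^ n := by
      have hpos : (0 : ℝ) < (n : ℝ) * K + 1 := by positivity
      rw [← Real.log_lt_log_iff (by positivity) (by positivity), Real.log_mul (by positivity)
        (by positivity), Real.log_mul (by norm_num) (by positivity), Real.log_pow, Real.log_pow]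
      have h3 : Real.log 8 = 3 * Real.log 2 := by
        rw [show (8 : ℝ) = 2 ^ 3 by norm_num, Real.log_pow]; norm_num
      rw [h3]
      have h4 : ((2 * om : ℕ) : ℝ) * Real.log ((n : ℝ) * K + 1) ≤ 9 * (L * lam) := by
        push_cast
        calc (2 * (om : ℝ)) * Real.log ((n : ℝ) * K + 1) ≤ (2 * (3 / 2 * L)) * (3 * lam) := by
              refine mul_le_mul (by linarith) hlog3 (Real.log_nonneg ?_) (by positivity)
              have : (0 : ℝ) ≤ (n : ℝ) * K := by positivity
              linarith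
          _ = 9 * (L * lam) := by ring
      have h5 : 13 * (L * lam) ≤ (n : ℝ) * Real.log 2 := by
        have h6 : 20 * L * lam * Real.log 2 ≤ (n : ℝ) * Real.log 2 :=
          mul_le_mul_of_nonneg_right hn1 (by linarith)
        have h7 : 13 * (L * lam) ≤ 20 * L * lam * Real.log 2 := by
          have h8 : 0 < L * lam := by positivity
          have h9 : 13 * (L * lam) ≤ (20 * 0.69) * (L * lam) :=
            mul_le_mul_of_nonneg_right (by norm_num) h8.le
          have h10 : (20 * 0.69) * (L * lam) ≤ (20 * Real.log 2) * (L * lam) :=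
            mul_le_mul_of_nonneg_right (by linarith) h8.le
          linarith
        linarith
      have h6 : 3 * 1 ≤ L * lam := mul_le_mul hL hlog (by norm_num) (by linarith)
      linarith
    exact_mod_cast hR
  · intro e he
    have hX0 : 0 < X := by linarith
    have h1 : Real.log (e : ℝ) ≤ 2 + lam := by
      rcases Nat.eq_zero_or_pos e with h | h
      · rw [h]
        simp only [Nat.cast_zero, Real.log_zero]
        linarith
      · have he0 : (0 : ℝ) < e := by exact_mod_cast h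
        have he1 : (e : ℝ) ≤ 5 * l := le_trans (by exact_mod_cast he) hE
        have h2 := Real.log_le_log he0 he1
        rw [Real.log_mul (by norm_num) (by positivity), ← hlam] at h2
        have h3 : Real.log 5 ≤ 2 := by
          rw [Real.log_le_iff_le_exp (by norm_num)]
          have h4 := Real.exp_one_gt_d9
          have h5 : Real.exp 2 = Real.exp 1 * Real.exp 1 := by rw [← Real.exp_add]; norm_num
          rw [h5]
          have h6 : (2.7 : ℝ) ≤ Real.exp 1 := by linarith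
          have h7 : (2.7 : ℝ) * 2.7 ≤ Real.exp 1 * Real.exp 1 :=
            mul_le_mul h6 h6 (by norm_num) (by positivity)
          norm_num at h7 ⊢
          linarith
        linarith
    have h2 : Real.log (⌊X⌋₊ : ℝ) ≤ L := by
      rw [← hXL]
      have h3 : 1 ≤ ⌊X⌋₊ := Nat.le_floor (by simpa using hX)
      exact Real.log_le_log (by exact_mod_cast h3) (Nat.floor_le hX0.le)
    have h3 : (n : ℝ) * Real.log (⌊X⌋₊ : ℝ) ≤ (20 * L * lam + 1) * L :=
      mul_le_mul hn2 h2 (Real.log_natCast_nonneg _) (by positivity)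
    have h4 : 100 * (L ^ 2 * lam) ≤ l / k := by
      rw [le_div_iff₀ hk0]
      linarith
    have h5 : 0 < L ^ 2 * lam := by positivity
    have h6 : (20 * L * lam + 1) * L = 20 * (L ^ 2 * lam) + L := by ring
    have h7 : 3 * 1 ≤ L * lam := mul_le_mul hL hlog (by norm_num) (by linarith)
    rw [h6] at h3
    linarith

end Pool.Agent.TH867.SR
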